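import Pool.Agent.Lib.MP_43d240_ag.FZ.Iface

/-!
Modules KER and SMO.
-/

namespace Pool.Agent.PI.FZ.H72

open MvPolynomial

section

variable {k J Λ : Type} [Field k] (g : J → Λ → MvPolynomial (Fin 3) k) (lam : J → Λ)

theorem mk_eq [DecidableEq Λ] (j : J) (l : Λ) :
    Ideal.Quotient.mk (Rel g lam) (rename Sum.inl (g j (lam j))) ∣
      Ideal.Quotient.mk (Rel g lam) (rename Sum.inl (g j l)) := by
  by_cases h : l = lam j
  · rw [h]
  · refine ⟨Ideal.Quotient.mk (Rel g lam) (X (Sum.inr ⟨(j, l), h⟩) ^ 2), ?_⟩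
    rw [← map_mul, eq_comm, Ideal.Quotient.mk_eq_mk_iff_sub_mem]
    exact Ideal.subset_span ⟨⟨(j, l), h⟩, rfl⟩

theorem unit_mod [DecidableEq Λ] [Fintype Λ] (j : J)
    (h : ∃ c : Λ → MvPolynomial (Fin 3) k, ∑ l, c l * g j l = 1) :
    IsUnit (Ideal.Quotient.mk (Rel g lam) (rename Sum.inl (g j (lam j)))) := by
  obtain ⟨c, hc⟩ := h
  rw [isUnit_iff_dvd_one]
  have h1 : Ideal.Quotient.mk (Rel g lam) (rename Sum.inl (∑ l, c l * g j l)) = 1 := by
    rw [hc, map_one, map_one]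
  rw [← h1, map_sum, map_sum]
  refine Finset.dvd_sum fun l _ => ?_
  rw [map_mul, map_mul]
  exact Dvd.dvd.mul_left (mk_eq g lam j l) _

end

theorem ker (hkum : KUM_S) (hspan : SPAN_S) (hksq : KSQ_S) (hnul : NUL_S) : KER_S := by
  intro k L J Λ _ _ _ _ _ _ _ _ h2 h3 x g lam r hC
  classical
  set φ := aeval (R := k) (Sum.elim x (fun i : Idx lam => r i.1.1 i.1.2)) with hφ
  have hφl : ∀ p : MvPolynomial (Fin 3) k, φ (rename Sum.inl p) = aeval x p := by
    intro p
    rw [hφ, aeval_rename]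
    rfl
  have hφr : ∀ i : Idx lam, φ (X (Sum.inr i)) = r i.1.1 i.1.2 := by
    intro i
    rw [hφ, aeval_X]
    rfl
  have hle : Rel g lam ≤ RingHom.ker φ := by
    rw [Rel, Ideal.span_le]
    rintro _ ⟨i, rfl⟩
    show φ (rel g lam i) = 0
    rw [rel, map_sub, map_mul, map_pow, hφl, hφl, hφr, mul_comm, hC.sq, sub_self]
  have hinj : Function.Injective (aeval x : MvPolynomial (Fin 3) k →ₐ[k] L) := hC.alg
  have hgne : ∀ j l, g j l ≠ 0 := by
    intro j l h0
    refine hC.nsq {(j, l)} (Finset.singleton_nonempty _) 0 1 one_ne_zero ?_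
    simp [h0]
  have hgxne : ∀ j l, aeval x (g j l) ≠ 0 := fun j l h0 =>
    hgne j l (hinj (by rw [h0, map_zero]))
  have hF : ∀ p : MvPolynomial (Fin 3) k,
      aeval x p ∈ (IntermediateField.adjoin k (Set.range x)).toSubfield := by
    intro p
    have h1 : aeval x p ∈ Algebra.adjoin k (Set.range x) := by
      rw [Algebra.adjoin_range_eq_range_aeval]
      exact ⟨p, rfl⟩
    exact IntermediateField.algebra_adjoin_le_adjoin k _ h1
  apply le_antisymm _ hle
  intro p hp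
  have hp0 : φ p = 0 := hp
  obtain ⟨N, c, hc⟩ := hspan k J Λ g lam p
  have h4 : ∑ w : Finset (Idx lam), aeval x (c w) * ∏ i ∈ w, r i.1.1 i.1.2 = 0 := by
    have h5 : φ (rename Sum.inl (∏ j, g j (lam j)) ^ N * p
        - ∑ w, rename Sum.inl (c w) * ∏ i ∈ w, X (Sum.inr i)) = 0 := hle hc
    rw [map_sub, map_mul, hp0, mul_zero, zero_sub, neg_eq_zero, map_sum] at h5
    rw [← h5]
    refine Finset.sum_congr rfl fun w _ => ?_
    rw [map_mul, hφl, map_prod]
    congr 1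
    exact Finset.prod_congr rfl fun i _ => (hφr i).symm
  have h2L : (2 : L) ≠ 0 := by
    rw [← map_ofNat (algebraMap k L) 2, Ne, map_eq_zero_iff _ (algebraMap k L).injective]
    exact h2
  have h6 := hkum L (Idx lam) (IntermediateField.adjoin k (Set.range x)).toSubfield h2L
    (fun i => r i.1.1 i.1.2) Finset.univ (fun i _ => by
      have h7 : r i.1.1 i.1.2 ^ 2 = aeval x (g i.1.1 i.1.2) / aeval x (g i.1.1 (lam i.1.1)) := by
        rw [eq_div_iff (hgxne _ _), hC.sq]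
      rw [h7]
      exact Subfield.div_mem _ (hF _) (hF _))
    (fun w _ hw => hksq k L J Λ x g lam r hC w hw)
    (fun w => aeval x (c w)) (fun w => hF _) (by
      rw [Finset.powerset_univ]
      exact h4)
  have h7 : ∀ w, c w = 0 := fun w => hinj (by
    rw [map_zero]
    exact h6 w (Finset.subset_univ _))
  have h8 : rename Sum.inl (∏ j, g j (lam j)) ^ N * p ∈ Rel g lam := by
    simpa [h7] using hc
  rw [← Ideal.Quotient.eq_zero_iff_mem] at h8 ⊢
  rw [map_mul, map_pow] at h8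
  have hu : IsUnit (Ideal.Quotient.mk (Rel g lam) (rename Sum.inl (∏ j, g j (lam j)))) := by
    rw [map_prod, map_prod, IsUnit.prod_iff]
    intro j _
    exact unit_mod g lam j (hnul k J Λ h3 g hC.gp j)
  exact (hu.pow N).mul_right_eq_zero.mp h8

theorem chartAlg_eq {k L J Λ : Type} [Field k] [Field L] [Algebra k L] [DecidableEq Λ]
    (x : Fin 3 → L) (lam : J → Λ) (r : J → Λ → L) (h1 : ∀ j, r j (lam j) = 1) :
    chartAlg k x r =
      (aeval (R := k) (Sum.elim x (fun i : Idx lam => r i.1.1 i.1.2))).range := by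
  rw [← Algebra.adjoin_range_eq_range_aeval, chartAlg]
  apply le_antisymm
  · apply Algebra.adjoin_le
    rintro z (⟨b, rfl⟩ | ⟨⟨j, l⟩, rfl⟩)
    · exact Algebra.subset_adjoin ⟨Sum.inl b, rfl⟩
    · by_cases h : l = lam j
      · show r j l ∈ _
        rw [h, h1]
        exact one_mem _
      · exact Algebra.subset_adjoin ⟨Sum.inr ⟨(j, l), h⟩, rfl⟩
  · apply Algebra.adjoin_le
    rintro z ⟨b | i, rfl⟩
    · exact Algebra.subset_adjoin (Or.inl ⟨b, rfl⟩)
    · exact Algebra.subset_adjoin (Or.inr ⟨i.1, rfl⟩)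

theorem smo (hjac : JAC_S) (hrows : ROWS_S) (hker : KER_S) : SMO_S := by
  intro k L J Λ _ _ _ _ _ _ _ _ h2 h3 x g lam r hC
  classical
  have h1 := hker k L J Λ h2 h3 x g lam r hC
  have hs : Algebra.Smooth k (MvPolynomial (Fin 3 ⊕ Idx lam) k ⧸ Rel g lam) :=
    hjac k (Fin 3 ⊕ Idx lam) (Idx lam) (rel g lam) (hrows k J Λ h2 h3 g lam hC.gp)
  have e1 : (MvPolynomial (Fin 3 ⊕ Idx lam) k ⧸ Rel g lam) ≃ₐ[k]
      (MvPolynomial (Fin 3 ⊕ Idx lam) k ⧸ RingHom.ker
        (aeval (R := k) (Sum.elim x (fun i : Idx lam => r i.1.1 i.1.2)))) :=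
    Ideal.quotientEquivAlgOfEq k h1.symm
  have e2 := Ideal.quotientKerEquivRange
    (aeval (R := k) (Sum.elim x (fun i : Idx lam => r i.1.1 i.1.2)))
  have e3 := Subalgebra.equivOfEq _ _ (chartAlg_eq (k := k) x lam r hC.one).symm
  exact Algebra.Smooth.of_equiv ((e1.trans e2).trans e3)

end Pool.Agent.PI.FZ.H72
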