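import Pool.Agent.Lib.MP_43d240_ag.FZ.H72.ModelAux
import Pool.Agent.Lib.MP_43d240_ag.FRZ.Defs
import Pool.Agent.Lib.MP_43d240_ag.Frozen.Defs

/-!
Module MODEL: the model in the language of `FRZ/Defs.lean` and `Frozen/Defs.lean`.
-/

namespace Pool.Agent.PI.FZ.H72

open MvPolynomial

theorem exists_field (k : Type) [Field k] (f : Fin 6 × Fin 4 → MvPolynomial (Fin 3) k)
    (hf : ∀ i, f i ≠ 0) :
    ∃ (K : Type) (_ : Field K) (_ : Algebra k K) (ψ : MvPolynomial (Fin 3) k →ₐ[k] K)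
      (r : Fin 6 × Fin 4 → K), Function.Injective ψ ∧ (∀ i, r i ≠ 0) ∧
      (∀ j l, r (j, l) ^ 2 * ψ (f (j, 0)) = ψ (f (j, l))) ∧
      (∀ L : Subfield K, (∀ a, ψ a ∈ L) → (∀ i, r i ∈ L) → L = ⊤) := by
  classical
  let F := FractionRing (MvPolynomial (Fin 3) k)
  let Ω := AlgebraicClosure F
  let ψ0 : MvPolynomial (Fin 3) k →ₐ[k] Ω :=
    (IsScalarTower.toAlgHom k F Ω).comp (IsScalarTower.toAlgHom k (MvPolynomial (Fin 3) k) F)
  have hψ0 : Function.Injective ψ0 :=
    (algebraMap F Ω).injective.comp (IsFractionRing.injective (MvPolynomial (Fin 3) k) F)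
  choose v hv using fun i => IsAlgClosed.exists_pow_nat_eq (ψ0 (f i)) (n := 2) (by norm_num)
  have hv0 : ∀ i, v i ≠ 0 := by
    intro i h0
    have h1 := hv i
    rw [h0, zero_pow (by norm_num)] at h1
    exact hf i (hψ0 (by rw [← h1, map_zero]))
  let s : Fin 6 × Fin 4 → Ω := fun i => v i / v (i.1, 0)
  let K : IntermediateField k Ω := IntermediateField.adjoin k (Set.range ψ0 ∪ Set.range s)
  have hψK : ∀ a, ψ0 a ∈ K := fun a => IntermediateField.subset_adjoin k _ (Or.inl ⟨a, rfl⟩)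
  have hsK : ∀ i, s i ∈ K := fun i => IntermediateField.subset_adjoin k _ (Or.inr ⟨i, rfl⟩)
  let ψ : MvPolynomial (Fin 3) k →ₐ[k] K := ψ0.codRestrict K.toSubalgebra hψK
  have hψc : ∀ a, ((ψ a : K) : Ω) = ψ0 a := fun a => rfl
  refine ⟨K, inferInstance, inferInstance, ψ, fun i => ⟨s i, hsK i⟩, ?_, ?_, ?_, ?_⟩
  · intro a b hab
    apply hψ0
    rw [← hψc, ← hψc, hab]
  · intro i h0
    have h1 : s i = 0 := congrArg Subtype.val h0
    exact (div_ne_zero (hv0 i) (hv0 _)) h1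
  · intro j l
    apply Subtype.ext
    show s (j, l) ^ 2 * ψ0 (f (j, 0)) = ψ0 (f (j, l))
    rw [← hv, ← hv]
    show (v (j, l) / v (j, 0)) ^ 2 * v (j, 0) ^ 2 = v (j, l) ^ 2
    rw [div_pow, div_mul_cancel₀ _ (pow_ne_zero _ (hv0 _))]
  · intro L hL1 hL2
    have hk : ∀ c : k, algebraMap k Ω c ∈ L.map (algebraMap K Ω) := by
      intro c
      refine ⟨ψ (C c), hL1 _, ?_⟩
      show ψ0 (C c) = _
      rw [← algebraMap_eq, ψ0.commutes]
    let L' : IntermediateField k Ω := (L.map (algebraMap K Ω)).toIntermediateField hk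
    have hle : K ≤ L' := by
      rw [IntermediateField.adjoin_le_iff]
      rintro z (⟨a, rfl⟩ | ⟨i, rfl⟩)
      · exact ⟨ψ a, hL1 a, rfl⟩
      · exact ⟨⟨s i, hsK i⟩, hL2 i, rfl⟩
    rw [eq_top_iff]
    intro z _
    obtain ⟨w, hw, hwz⟩ := hle z.2
    have : w = z := Subtype.ext hwz
    rwa [← this]

/-- The statement of MODEL (the form used by helper21's assembly of GeoStatement). -/
def ModelS : Prop :=
  ∀ (k : Type) [Field k] [IsAlgClosed k] [CharZero k] (f : Fin 6 × Fin 4 → MvPolynomial (Fin 4) k),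
    (∀ i, (f i).IsHomogeneous 6) → Pool.Agent.PI.GP f →
    ∃ (K : Type) (_ : Field K) (_ : Algebra k K) (M : ℕ) (y : Fin (M + 1) → K),
      (∀ i, y i ≠ 0) ∧
      (∀ i, Algebra.Smooth k (Pool.Agent.Lib.MP_43d240_ag.FRZ.Ch k y i)) ∧
      (∀ i, ringKrullDim (Pool.Agent.Lib.MP_43d240_ag.FRZ.Ch k y i) = 3) ∧
      (∀ i, IsFractionRing (Pool.Agent.Lib.MP_43d240_ag.FRZ.Ch k y i) K) ∧
      ∃ (ψ : MvPolynomial (Fin 3) k →+* K) (r : Fin 6 × Fin 4 → K),
        Function.Injective ψ ∧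
        (∀ j l, r (j, l) ^ 2 * ψ (deh (f (j, 0))) = ψ (deh (f (j, l)))) ∧
        (∀ L : Subfield K, (∀ a, ψ a ∈ L) → (∀ i, r i ∈ L) → L = ⊤) ∧
        ∀ (i : Fin 6 × Fin 4) (j : Fin (M + 1)),
          ∃ (u : (Pool.Agent.Lib.MP_43d240_ag.FRZ.Ch k y j)ˣ) (c : K), c ≠ 0 ∧
            ψ (deh (f i)) = ((u : Pool.Agent.Lib.MP_43d240_ag.FRZ.Ch k y j) : K) * c ^ 2

theorem deh_eq {k : Type} [Field k] (p : MvPolynomial (Fin 4) k) :
    (deh p : MvPolynomial (Fin 3) k) = dh 0 p := by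
  rw [deh, dh]
  congr 2
  funext v
  fin_cases v <;> rfl

theorem model (hgpa : GPA_S) (hnca : NCA_S) (hnsq : NSQ_S) (hind : IND_S) (hsmo : SMO_S)
    (hdim : DIM_S) (hfrac : FRAC_S) (huni : UNI_S) : ModelS := by
  intro k _ _ _ f hf hgp
  classical
  have h2 : (2 : k) ≠ 0 := two_ne_zero
  have h6 : ((6 : ℕ) : k) ≠ 0 := by exact_mod_cast (by norm_num : (6 : ℕ) ≠ 0)
  have hgp0 : Pool.Agent.PI.FZ.GP (fun i => dh 0 (f i)) := hgpa k _ 6 h6 f hf hgp 0
  have hnsq0 := hnsq k _ h2 _ hgp0 (hnca k _ 6 (by norm_num) f hf hgp 0)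
  have hne : ∀ i, dh 0 (f i) ≠ 0 := by
    intro i h0
    refine hnsq0 {i} (Finset.singleton_nonempty _) 0 1 one_ne_zero ?_
    simp [h0]
  obtain ⟨K, _, _, ψ, r, hψ, hr0, hr2, hgen⟩ := exists_field k (fun i => dh 0 (f i)) hne
  -- homogeneous coordinates
  let x : Fin 4 → K := Fin.cons 1 (fun b => ψ (X b))
  have hx0 : x 0 = 1 := rfl
  have hxs : ∀ b : Fin 3, x b.succ = ψ (X b) := fun b => rfl
  have halg : AlgebraicIndependent k (fun b : Fin 3 => x b.succ) := by
    have : (aeval (fun b : Fin 3 => x b.succ) : MvPolynomial (Fin 3) k →ₐ[k] K) = ψ := by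
      apply MvPolynomial.algHom_ext
      intro b
      rw [aeval_X, hxs]
    rw [AlgebraicIndependent, this]
    exact hψ
  have hx : ∀ a, x a ≠ 0 := by
    intro a
    induction a using Fin.cases with
    | zero => rw [hx0]; exact one_ne_zero
    | succ b =>
      rw [hxs]
      intro h0
      exact X_ne_zero b (hψ (by rw [h0, map_zero]))
  have hψx : ∀ p : MvPolynomial (Fin 4) k, ψ (dh 0 p) = aeval x p := by
    intro p
    have : ψ.comp (dh 0) = aeval x := by
      apply MvPolynomial.algHom_ext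
      intro v
      rw [AlgHom.comp_apply, dh, aeval_X, aeval_X]
      induction v using Fin.cases with
      | zero => simp [hx0]
      | succ b =>
        rw [hxs]
        congr 1
    exact DFunLike.congr_fun this p
  let r' : Fin 6 → Fin 4 → K := fun j l => r (j, l)
  have hr' : ∀ j l, r' j l ≠ 0 := fun j l => hr0 _
  have hr2' : ∀ j l, r' j l ^ 2 * aeval x (f (j, 0)) = aeval x (f (j, l)) := by
    intro j l
    rw [← hψx, ← hψx]
    exact hr2 j l
  have hCh : ∀ t : Fin 4 × (Fin 6 → Fin 4),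
      IsChart (k := k) (fun b => x (t.1.succAbove b) / x t.1)
        (fun j l => dh t.1 (f (j, l))) t.2 (fun j l => r' j l / r' j (t.2 j)) := fun t =>
    isChart hgpa hnca hnsq hind (by norm_num) h6 h2 f hf hgp x hx0 hx halg r' hr' hr2' t
  have hadj := fun t => chart_adjoin (k := k) hx hr' t
  -- indexing
  obtain ⟨M, hM⟩ : ∃ M, Fintype.card (Fin 4 × (Fin 6 → Fin 4)) = M + 1 :=
    Nat.exists_eq_succ_of_ne_zero Fintype.card_ne_zero
  let e : Fin (M + 1) ≃ (Fin 4 × (Fin 6 → Fin 4)) :=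
    (Fintype.equivFinOfCardEq hM).symm
  let y : Fin (M + 1) → K := fun i => yy x r' (e i)
  have hChEq : ∀ i, Pool.Agent.Lib.MP_43d240_ag.FRZ.Ch k y i =
      chartAlg k (fun b => x ((e i).1.succAbove b) / x (e i).1)
        (fun j l => r' j l / r' j ((e i).2 j)) := by
    intro i
    rw [← hadj (e i), Pool.Agent.Lib.MP_43d240_ag.FRZ.Ch]
    congr 1
    ext z
    constructor
    · rintro ⟨j, rfl⟩
      exact ⟨e j, rfl⟩
    · rintro ⟨s, rfl⟩
      refine ⟨e.symm s, ?_⟩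
      show yy x r' (e (e.symm s)) / yy x r' (e i) = _
      rw [e.apply_symm_apply]
  have h3 : 3 < Fintype.card (Fin 4) := by simp
  refine ⟨K, inferInstance, inferInstance, M, y, fun i => yy_ne hx hr' _, ?_, ?_, ?_,
    ψ, r, hψ, ?_, ?_, ?_⟩
  · intro i
    rw [hChEq]
    exact hsmo k K (Fin 6) (Fin 4) h2 h3 _ _ _ _ (hCh (e i))
  · intro i
    rw [hChEq]
    exact hdim k K (Fin 6) (Fin 4) h3 _ _ _ _ (hCh (e i))
  · intro i
    rw [hChEq]
    apply hfrac
    set S : IntermediateField k K := IntermediateField.adjoin k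
      (Set.range (fun b => x ((e i).1.succAbove b) / x (e i).1) ∪
        Set.range (fun p : Fin 6 × Fin 4 => r' p.1 p.2 / r' p.1 ((e i).2 p.1))) with hS
    have hxa : ∀ a, x a / x (e i).1 ∈ S := by
      intro a
      by_cases ha : a = (e i).1
      · rw [ha, div_self (hx _)]
        exact one_mem _
      · obtain ⟨b, rfl⟩ := Fin.exists_succAbove_eq ha
        exact IntermediateField.subset_adjoin k _ (Or.inl ⟨b, rfl⟩)
    have hxS : ∀ a, x a ∈ S := by
      intro a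
      have h1 : x a = (x a / x (e i).1) / (x 0 / x (e i).1) := by
        rw [div_div_div_cancel_right₀ (hx _), hx0, div_one]
      rw [h1]
      exact S.div_mem (hxa a) (hxa 0)
    have hrS0 : ∀ j l, r' j l / r' j ((e i).2 j) ∈ S := fun j l =>
      IntermediateField.subset_adjoin k _ (Or.inr ⟨(j, l), rfl⟩)
    have hr10 : ∀ j, r' j 0 ^ 2 = 1 := by
      intro j
      have h1 := hr2 j 0
      have h5 : ψ (dh 0 (f (j, 0))) ≠ 0 := fun h0 => hne (j, 0) (hψ (by rw [h0, map_zero]))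
      exact mul_right_cancel₀ h5 (by rw [one_mul]; exact h1)
    have hr0S : ∀ j, r' j 0 ∈ S := by
      intro j
      rcases (sq_eq_sq_iff_eq_or_eq_neg.mp ((hr10 j).trans (one_pow 2).symm)) with h | h
      · rw [h]; exact one_mem _
      · rw [h]; exact neg_mem (one_mem _)
    have hrS : ∀ j l, r' j l ∈ S := by
      intro j l
      have h1 : r' j l = (r' j l / r' j ((e i).2 j)) / (r' j 0 / r' j ((e i).2 j)) * r' j 0 := by
        rw [div_div_div_cancel_right₀ (hr' _ _), div_mul_cancel₀ _ (hr' _ _)]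
      rw [h1]
      exact S.mul_mem (S.div_mem (hrS0 j l) (hrS0 j 0)) (hr0S j)
    have hψS : ∀ a, ψ a ∈ S := by
      intro a
      have h1 : ψ a ∈ Algebra.adjoin k (Set.range fun b : Fin 3 => x b.succ) := by
        rw [Algebra.adjoin_range_eq_range_aeval]
        refine ⟨a, ?_⟩
        have : (aeval (fun b : Fin 3 => x b.succ) : MvPolynomial (Fin 3) k →ₐ[k] K) = ψ := by
          apply MvPolynomial.algHom_ext
          intro b
          rw [aeval_X, hxs]
        rw [← this]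
        rfl
      have h2 : Algebra.adjoin k (Set.range fun b : Fin 3 => x b.succ) ≤ S.toSubalgebra := by
        apply Algebra.adjoin_le
        rintro _ ⟨b, rfl⟩
        exact hxS _
      exact h2 h1
    have h7 := hgen S.toSubfield hψS (fun i => hrS i.1 i.2)
    rw [eq_top_iff]
    intro z _
    have : z ∈ S.toSubfield := by rw [h7]; trivial
    exact this
  · intro j l
    rw [deh_eq, deh_eq]
    exact hr2 j l
  · intro L hL1 hL2
    exact hgen L hL1 hL2
  · rintro ⟨j, l⟩ i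
    obtain ⟨h8, h9, h10⟩ := huni k K (Fin 6) (Fin 4) h3 _ _ _ _ (hCh (e i)) j
    set w := aeval (fun b => x ((e i).1.succAbove b) / x (e i).1)
      (dh (e i).1 (f (j, (e i).2 j))) with hw
    rw [← hChEq] at h9 h10
    refine ⟨⟨⟨w, h9⟩, ⟨w⁻¹, h10⟩, Subtype.ext (mul_inv_cancel₀ h8),
      Subtype.ext (inv_mul_cancel₀ h8)⟩,
      x (e i).1 ^ 3 * (r' j l / r' j ((e i).2 j)),
      mul_ne_zero (pow_ne_zero _ (hx _)) (div_ne_zero (hr' _ _) (hr' _ _)), ?_⟩
    show ψ (deh (f (j, l))) = w * (x (e i).1 ^ 3 * (r' j l / r' j ((e i).2 j))) ^ 2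
    have h11 := (hCh (e i)).sq j l
    rw [deh_eq, hψx, aeval_chart (hf (j, l)) x (e i).1 (hx _), ← h11, ← hw]
    ring

end Pool.Agent.PI.FZ.H72
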