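import Pool.Agent.Lib.MP_43d240_ag.FZ.Iface

/-!
Module JAC: the Jacobian criterion of smoothness over an algebraically closed field, checked at
the closed points.
-/

namespace Pool.Agent.PI.FZ.H72

open MvPolynomial Matrix

/-- A nonzero ideal of a polynomial ring over an algebraically closed field has a zero unless it is
the whole ring. -/
theorem exists_zero {k σ : Type} [Field k] [IsAlgClosed k] [Finite σ]
    (I : Ideal (MvPolynomial σ k)) (hI : I ≠ ⊤) : ∃ P : σ → k, ∀ p ∈ I, eval P p = 0 := by
  obtain ⟨M, hM, hIM⟩ := Ideal.exists_le_maximal I hI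
  obtain ⟨P, rfl⟩ := isMaximal_iff_eq_vanishingIdeal_singleton.mp hM
  refine ⟨P, fun p hp => ?_⟩
  have := (mem_vanishingIdeal_singleton_iff P p).mp (hIM hp)
  simpa [aeval_eq_eval] using this

/-- Taylor expansion to first order in a ring with a square zero ideal. -/
theorem taylor {k σ B : Type} [Field k] [Fintype σ] [CommRing B] [Algebra k B]
    (N : Ideal B) (hN : N ^ 2 = ⊥) (b δ : σ → B) (hδ : ∀ v, δ v ∈ N) (p : MvPolynomial σ k) :
    aeval (fun v => b v + δ v) p = aeval b p + ∑ v, aeval b (pderiv v p) * δ v := by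
  classical
  have hNN : ∀ x ∈ N, ∀ y ∈ N, x * y = 0 := fun x hx y hy => by
    have : x * y ∈ N ^ 2 := by rw [pow_two]; exact Ideal.mul_mem_mul hx hy
    rw [hN] at this
    simpa using this
  induction p using MvPolynomial.induction_on with
  | C a => simp
  | add p q hp hq =>
    simp only [map_add, hp, hq, add_mul, Finset.sum_add_distrib]
    ring
  | mul_X p n hp =>
    have hsum : (∑ v, aeval b (pderiv v (p * X n)) * δ v)
        = (∑ v, aeval b (pderiv v p) * δ v) * b n + aeval b p * δ n := by
      have : ∀ v, aeval b (pderiv v (p * X n)) * δ v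
          = aeval b (pderiv v p) * δ v * b n + (if v = n then aeval b p * δ n else 0) := by
        intro v
        rw [Derivation.leibniz, pderiv_X]
        by_cases h : v = n
        · subst h
          simp
          ring
        · simp [h]
          ring
      rw [Finset.sum_congr rfl (fun v _ => this v), Finset.sum_add_distrib,
        Finset.sum_ite_eq' Finset.univ n, if_pos (Finset.mem_univ _), Finset.sum_mul]
    have h0 : (∑ v, aeval b (pderiv v p) * δ v) * δ n = 0 := by
      rw [Finset.sum_mul]
      refine Finset.sum_eq_zero fun v _ => ?_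
      rw [mul_assoc, hNN _ (hδ v) _ (hδ n), mul_zero]
    rw [map_mul, hp, hsum, aeval_X, map_mul, aeval_X]
    linear_combination h0

/-- A matrix over a field with linearly independent rows has a right inverse. -/
theorem exists_right_inv {k σ ι : Type} [Field k] [Fintype σ] [Fintype ι] [DecidableEq ι]
    (M : Matrix ι σ k) (h : LinearIndependent k (fun i => fun v => M i v)) :
    ∃ R : Matrix σ ι k, M * R = 1 := by
  classical
  have hinj : Function.Injective M.vecMul := Matrix.vecMul_injective_iff.mpr h
  have hinj' : LinearMap.ker (Matrix.toLin' Mᵀ) = ⊥ := by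
    rw [LinearMap.ker_eq_bot]
    intro x y hxy
    apply hinj
    simpa [Matrix.toLin'_apply, Matrix.mulVec_transpose] using hxy
  obtain ⟨g, hg⟩ := LinearMap.exists_leftInverse_of_injective (Matrix.toLin' Mᵀ) hinj'
  refine ⟨(LinearMap.toMatrix' g)ᵀ, ?_⟩
  have h2 : LinearMap.toMatrix' g * Mᵀ = 1 := by
    have := congrArg LinearMap.toMatrix' hg
    rw [LinearMap.toMatrix'_comp, LinearMap.toMatrix'_toLin', LinearMap.toMatrix'_id] at this
    exact this
  have h3 := congrArg Matrix.transpose h2
  rw [Matrix.transpose_mul, Matrix.transpose_transpose, Matrix.transpose_one] at h3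
  exact h3

/-- The Jacobian matrix has a right inverse modulo the ideal. -/
theorem exists_right_inv_mod {k σ ι : Type} [Field k] [IsAlgClosed k] [Fintype σ] [Fintype ι]
    [DecidableEq ι] (I : Ideal (MvPolynomial σ k)) (M : Matrix ι σ (MvPolynomial σ k))
    (h : ∀ P : σ → k, (∀ p ∈ I, eval P p = 0) →
      LinearIndependent k (fun (i : ι) (v : σ) => eval P (M i v))) :
    ∃ R : Matrix σ ι (MvPolynomial σ k), ∀ i j, (M * R - 1 : Matrix ι ι (MvPolynomial σ k)) i j ∈ I := by
  classical
  let D : Ideal (MvPolynomial σ k) :=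
    { carrier := {s | ∃ R : Matrix σ ι (MvPolynomial σ k), ∀ i j,
        (M * R - s • 1 : Matrix ι ι (MvPolynomial σ k)) i j ∈ I}
      zero_mem' := ⟨0, fun i j => by simp⟩
      add_mem' := by
        rintro a b ⟨R, hR⟩ ⟨R', hR'⟩
        refine ⟨R + R', fun i j => ?_⟩
        have := I.add_mem (hR i j) (hR' i j)
        convert! this using 1
        simp only [Matrix.mul_add, Matrix.sub_apply, Matrix.add_apply, Matrix.smul_apply,
          smul_eq_mul]
        ring
      smul_mem' := by
        rintro c a ⟨R, hR⟩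
        refine ⟨c • R, fun i j => ?_⟩
        have := I.mul_mem_left c (hR i j)
        convert! this using 1
        simp only [Matrix.mul_smul, Matrix.sub_apply, Matrix.smul_apply, smul_eq_mul]
        ring }
  have hD : D = ⊤ := by
    by_contra hne
    obtain ⟨P, hP⟩ := exists_zero D hne
    have hI : ∀ p ∈ I, eval P p = 0 := fun p hp => hP p ⟨0, fun i j => by
      simp only [Matrix.mul_zero, Matrix.sub_apply, Matrix.zero_apply, Matrix.smul_apply,
        smul_eq_mul, zero_sub]
      exact I.neg_mem (I.mul_mem_right _ hp)⟩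
    obtain ⟨R, hR⟩ := exists_right_inv (M.map (eval P)) (h P hI)
    let R' : Matrix σ ι (MvPolynomial σ k) := R.map C
    have hmem : (M * R').det ∈ D := by
      refine ⟨R' * (M * R').adjugate, fun i j => ?_⟩
      rw [← Matrix.mul_assoc, Matrix.mul_adjugate, sub_self]
      exact I.zero_mem
    have h1 : eval P (M * R').det = 1 := by
      rw [RingHom.map_det]
      have : (eval P).mapMatrix (M * R') = M.map (eval P) * R := by
        rw [RingHom.mapMatrix_apply, Matrix.map_mul]
        congr 1
        ext i j
        simp [R']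
      rw [this, hR, Matrix.det_one]
    exact one_ne_zero (h1.symm.trans (hP _ hmem))
  obtain ⟨R, hR⟩ : (1 : MvPolynomial σ k) ∈ D := hD ▸ Submodule.mem_top
  exact ⟨R, fun i j => by simpa using hR i j⟩

theorem formallySmooth_of {k σ ι : Type} [Field k] [Fintype σ] [Fintype ι] [DecidableEq ι]
    (F : ι → MvPolynomial σ k) (R : Matrix σ ι (MvPolynomial σ k))
    (hR : ∀ i j, ((Matrix.of fun i v => pderiv v (F i)) * R - 1 :
      Matrix ι ι (MvPolynomial σ k)) i j ∈ Ideal.span (Set.range F)) :
    Algebra.FormallySmooth k (MvPolynomial σ k ⧸ Ideal.span (Set.range F)) := by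
  classical
  set I := Ideal.span (Set.range F) with hIdef
  refine Algebra.FormallySmooth.of_comp_surjective ?_
  intro B _ _ N hN φ
  have hNN : ∀ x ∈ N, ∀ y ∈ N, x * y = 0 := fun x hx y hy => by
    have : x * y ∈ N ^ 2 := by rw [pow_two]; exact Ideal.mul_mem_mul hx hy
    rw [hN] at this
    simpa using this
  choose b hb using fun v : σ =>
    Ideal.Quotient.mk_surjective (φ (Ideal.Quotient.mk I (X v)))
  have hψ : ∀ p : MvPolynomial σ k,
      Ideal.Quotient.mk N (aeval b p) = φ (Ideal.Quotient.mk I p) := by
    intro p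
    have : (Ideal.Quotient.mkₐ k N).comp (aeval b) = φ.comp (Ideal.Quotient.mkₐ k I) := by
      apply MvPolynomial.algHom_ext
      intro v
      simpa using hb v
    exact DFunLike.congr_fun this p
  have hIN : ∀ p ∈ I, aeval b p ∈ N := by
    intro p hp
    rw [← Ideal.Quotient.eq_zero_iff_mem, hψ, Ideal.Quotient.eq_zero_iff_mem.mpr hp, map_zero]
  have hFI : ∀ i, F i ∈ I := fun i => Ideal.subset_span ⟨i, rfl⟩
  let δ : σ → B := fun v => -∑ j, aeval b (R v j) * aeval b (F j)
  have hδ : ∀ v, δ v ∈ N := fun v =>
    N.neg_mem (N.sum_mem fun j _ => N.mul_mem_left _ (hIN _ (hFI j)))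
  let ψ' : MvPolynomial σ k →ₐ[k] B := aeval (fun v => b v + δ v)
  have hψ'F : ∀ i, ψ' (F i) = 0 := by
    intro i
    have h1 : ψ' (F i) = aeval b (F i) + ∑ v, aeval b (pderiv v (F i)) * δ v :=
      taylor N hN b δ hδ (F i)
    have h2 : ∑ v, aeval b (pderiv v (F i)) * δ v
        = -∑ j, aeval b (((Matrix.of fun i v => pderiv v (F i)) * R) i j) * aeval b (F j) := by
      simp only [δ, Matrix.mul_apply, Matrix.of_apply, map_sum, map_mul, mul_neg,
        Finset.sum_neg_distrib, Finset.mul_sum, Finset.sum_mul]
      rw [Finset.sum_comm]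
      congr 1
      refine Finset.sum_congr rfl fun j _ => Finset.sum_congr rfl fun v _ => by ring
    have h3 : ∑ j, aeval b (((Matrix.of fun i v => pderiv v (F i)) * R) i j) * aeval b (F j)
        = aeval b (F i) := by
      have : ∀ j, aeval b (((Matrix.of fun i v => pderiv v (F i)) * R) i j) * aeval b (F j)
          = (if i = j then aeval b (F j) else 0) := by
        intro j
        have hz := hNN _ (hIN _ (hR i j)) _ (hIN _ (hFI j))
        rw [Matrix.sub_apply, map_sub, sub_mul, sub_eq_zero] at hz
        rw [hz, Matrix.one_apply]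
        split_ifs <;> simp
      rw [Finset.sum_congr rfl fun j _ => this j]
      simp
    rw [h1, h2, h3, add_neg_cancel]
  have hψ'I : ∀ p ∈ I, ψ' p = 0 := by
    intro p hp
    have : I ≤ RingHom.ker ψ'.toRingHom := by
      rw [hIdef, Ideal.span_le]
      rintro _ ⟨i, rfl⟩
      exact hψ'F i
    exact this hp
  refine ⟨Ideal.Quotient.liftₐ I ψ' hψ'I, ?_⟩
  apply AlgHom.ext
  intro a
  obtain ⟨p, rfl⟩ := Ideal.Quotient.mk_surjective a
  have hmk : Ideal.Quotient.mk N (ψ' p) = φ (Ideal.Quotient.mk I p) := by
    have : (Ideal.Quotient.mkₐ k N).comp ψ' = φ.comp (Ideal.Quotient.mkₐ k I) := by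
      apply MvPolynomial.algHom_ext
      intro v
      have h0 : Ideal.Quotient.mk N (δ v) = 0 := Ideal.Quotient.eq_zero_iff_mem.mpr (hδ v)
      simpa [ψ', h0] using hb v
    exact DFunLike.congr_fun this p
  exact hmk

/-- The Jacobian criterion. -/
theorem jac : JAC_S := by
  intro k σ ι _ _ _ _ F h
  classical
  cases nonempty_fintype σ
  cases nonempty_fintype ι
  obtain ⟨R, hR⟩ := exists_right_inv_mod (Ideal.span (Set.range F))
    (Matrix.of fun i v => pderiv v (F i)) (fun P hP =>
      h P fun i => hP _ (Ideal.subset_span ⟨i, rfl⟩))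
  have h1 : Algebra.FormallySmooth k (MvPolynomial σ k ⧸ Ideal.span (Set.range F)) :=
    formallySmooth_of F R hR
  have h2 : Algebra.FinitePresentation k (MvPolynomial σ k ⧸ Ideal.span (Set.range F)) :=
    Algebra.FinitePresentation.quotient
      ⟨(Set.finite_range F).toFinset, by simp⟩
  exact ⟨h1, h2⟩

end Pool.Agent.PI.FZ.H72
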