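import Pool.Agent.Lib.MP_43d240_ag.FZ.Iface

/-!
Auxiliary lemmas for MODEL.
-/

namespace Pool.Agent.PI.FZ.H72

open MvPolynomial

theorem aeval_scale {k L σ : Type} [Field k] [Field L] [Algebra k L] {d : ℕ}
    {f : MvPolynomial σ k} (hf : f.IsHomogeneous d) (c : L) (z : σ → L) :
    aeval (fun v => c * z v) f = c ^ d * aeval z f := by
  rw [aeval_def, aeval_def, eval₂_eq, eval₂_eq, Finset.mul_sum]
  refine Finset.sum_congr rfl fun m hm => ?_
  have h1 : ∏ i ∈ m.support, (c * z i) ^ m i = c ^ d * ∏ i ∈ m.support, z i ^ m i := by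
    rw [hf.degree_eq_sum_deg_support hm, ← Finset.prod_pow_eq_pow_sum,
      ← Finset.prod_mul_distrib]
    exact Finset.prod_congr rfl fun i _ => mul_pow _ _ _
  rw [h1]
  ring

theorem aeval_dh {k L : Type} [Field k] [Field L] [Algebra k L] (a : Fin 4)
    (f : MvPolynomial (Fin 4) k) (z : Fin 3 → L) :
    aeval z (dh a f) = aeval (a.insertNth (1 : L) z : Fin 4 → L) f := by
  have : (aeval z : MvPolynomial (Fin 3) k →ₐ[k] L).comp (dh a) =
      aeval (a.insertNth (1 : L) z : Fin 4 → L) := by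
    apply MvPolynomial.algHom_ext
    intro v
    rw [AlgHom.comp_apply, dh, aeval_X, aeval_X]
    induction v using a.succAboveCases with
    | x => simp
    | p b => simp
  exact DFunLike.congr_fun this f

theorem aeval_chart {k L : Type} [Field k] [Field L] [Algebra k L] {d : ℕ}
    {f : MvPolynomial (Fin 4) k} (hf : f.IsHomogeneous d) (x : Fin 4 → L) (a : Fin 4)
    (hx : x a ≠ 0) :
    aeval x f = x a ^ d * aeval (fun b => x (a.succAbove b) / x a) (dh a f) := by
  rw [aeval_dh, ← aeval_scale hf]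
  congr 2
  funext v
  induction v using a.succAboveCases with
  | x => simp
  | p b => simp [mul_div_cancel₀, hx]

/-- The generators of the embedding. -/
noncomputable def yy {L : Type} [Field L] (x : Fin 4 → L) (r : Fin 6 → Fin 4 → L)
    (t : Fin 4 × (Fin 6 → Fin 4)) : L := x t.1 * ∏ j, r j (t.2 j)

theorem yy_ne {L : Type} [Field L] {x : Fin 4 → L} {r : Fin 6 → Fin 4 → L}
    (hx : ∀ a, x a ≠ 0) (hr : ∀ j l, r j l ≠ 0) (t : Fin 4 × (Fin 6 → Fin 4)) :
    yy x r t ≠ 0 :=
  mul_ne_zero (hx _) (Finset.prod_ne_zero_iff.mpr fun _ _ => hr _ _)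

theorem chart_adjoin {k L : Type} [Field k] [Field L] [Algebra k L] {x : Fin 4 → L}
    {r : Fin 6 → Fin 4 → L} (hx : ∀ a, x a ≠ 0) (hr : ∀ j l, r j l ≠ 0)
    (t : Fin 4 × (Fin 6 → Fin 4)) :
    Algebra.adjoin k (Set.range fun s => yy x r s / yy x r t) =
      chartAlg k (fun b => x (t.1.succAbove b) / x t.1)
        (fun j l => r j l / r j (t.2 j)) := by
  obtain ⟨a, lam⟩ := t
  apply le_antisymm
  · apply Algebra.adjoin_le
    rintro z ⟨⟨a', lam'⟩, rfl⟩
    have h1 : yy x r (a', lam') / yy x r (a, lam) =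
        (x a' / x a) * ∏ j, (r j (lam' j) / r j (lam j)) := by
      rw [Finset.prod_div_distrib, yy, yy, mul_div_mul_comm]
    show yy x r (a', lam') / yy x r (a, lam) ∈ _
    rw [h1]
    refine mul_mem ?_ (prod_mem fun j _ => Algebra.subset_adjoin (Or.inr ⟨(j, lam' j), rfl⟩))
    induction a' using a.succAboveCases with
    | x => rw [div_self (hx a)]; exact one_mem _
    | p b => exact Algebra.subset_adjoin (Or.inl ⟨b, rfl⟩)
  · apply Algebra.adjoin_le
    rintro z (⟨b, rfl⟩ | ⟨⟨j, l⟩, rfl⟩)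
    · refine Algebra.subset_adjoin ⟨(a.succAbove b, lam), ?_⟩
      show yy x r (a.succAbove b, lam) / yy x r (a, lam) = x (a.succAbove b) / x a
      rw [yy, yy, mul_div_mul_right]
      exact Finset.prod_ne_zero_iff.mpr fun j _ => hr _ _
    · refine Algebra.subset_adjoin ⟨(a, Function.update lam j l), ?_⟩
      show yy x r (a, Function.update lam j l) / yy x r (a, lam) = r j l / r j (lam j)
      rw [yy, yy, mul_div_mul_left _ _ (hx a), ← Finset.prod_div_distrib,
        Finset.prod_eq_single j]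
      · simp
      · intro j' _ hj'
        show r j' (Function.update lam j l j') / r j' (lam j') = 1
        rw [Function.update_of_ne hj', div_self (hr _ _)]
      · intro h
        exact absurd (Finset.mem_univ j) h

/-- Every chart of the model is a chart in the sense of `IsChart`. -/
theorem isChart {k L : Type} [Field k] [IsAlgClosed k] [Field L] [Algebra k L]
    (hgpa : GPA_S) (hnca : NCA_S) (hnsq : NSQ_S) (hind : IND_S) {d : ℕ} (hd : 2 ≤ d)
    (hdk : (d : k) ≠ 0) (h2 : (2 : k) ≠ 0)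
    (f : Fin 6 × Fin 4 → MvPolynomial (Fin 4) k) (hf : ∀ i, (f i).IsHomogeneous d)
    (hgp : GPh f) (x : Fin 4 → L) (hx0 : x 0 = 1)
    (hx : ∀ a, x a ≠ 0) (halg : AlgebraicIndependent k (fun b : Fin 3 => x b.succ))
    (r : Fin 6 → Fin 4 → L) (hr : ∀ j l, r j l ≠ 0)
    (hr2 : ∀ j l, r j l ^ 2 * aeval x (f (j, 0)) = aeval x (f (j, l)))
    (t : Fin 4 × (Fin 6 → Fin 4)) :
    IsChart (k := k) (fun b => x (t.1.succAbove b) / x t.1)
      (fun j l => dh t.1 (f (j, l))) t.2 (fun j l => r j l / r j (t.2 j)) := by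
  have hgp' : GP (fun i => dh t.1 (f i)) := hgpa k _ d hdk f hf hgp t.1
  refine ⟨hind k L x hx0 halg t.1, hgp', hnsq k _ h2 _ hgp' (hnca k _ d hd f hf hgp t.1),
    fun j => div_self (hr _ _), fun j l => ?_⟩
  have h1 := aeval_chart (hf (j, l)) x t.1 (hx t.1)
  have h3 := aeval_chart (hf (j, t.2 j)) x t.1 (hx t.1)
  have h4 := hr2 j l
  have h5 := hr2 j (t.2 j)
  have hxd : x t.1 ^ d ≠ 0 := pow_ne_zero _ (hx _)
  have hrne : r j (t.2 j) ^ 2 ≠ 0 := pow_ne_zero _ (hr _ _)
  apply mul_left_cancel₀ hxd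
  rw [← h1, ← h4]
  rw [div_pow, div_mul_eq_mul_div, mul_div_assoc', div_eq_iff hrne]
  have h6 : x t.1 ^ d * (r j l ^ 2 *
      (aeval fun b => x (t.1.succAbove b) / x t.1) (dh t.1 (f (j, t.2 j)))) =
      r j l ^ 2 * aeval x (f (j, t.2 j)) := by
    rw [h3]; ring
  rw [h6, ← h5]
  ring

end Pool.Agent.PI.FZ.H72
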